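import Pool.Agent.H923R2.FP.Stubs

/-! Task WDER: derivative of a word along the flow. -/

set_option autoImplicit false

open scoped ComplexConjugate

namespace Pool.Agent.H923R2.FP.T_WDER

open Pool.Agent.H923R2.FP

theorem t_WDER : S_WDER := by
  intro A Q R _ _ _ _ _ _ _ π ρ hx px T U s hsa hsol w t ht
  set h : A := evx (vl (cj π (U t)) ρ (s t)) hx with hh
  set P : A := evx (vl (cj π (U t)) ρ (s t)) px with hP
  have hstar : star h = h := hsa _ (fun z => vl_stl (cj π (U t)) ρ (hsol.ssa t) z)
  have hlet : ∀ z : Lt Q R, HasDerivWithinAt (fun t => vl (cj π (U t)) ρ (s t) z)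
      (dl (cj π (U t)) h P z) (Set.Icc 0 T) t := by
    intro z
    cases z with
    | q x =>
      have hU := hsol.dU t ht
      have hUs : HasDerivWithinAt (fun t => star (U t : A))
          (star (Complex.I • ((U t : A) * h))) (Set.Icc 0 T) t := hU.star
      have h1 := (hUs.mul_const (π x)).mul hU
      have e : (fun t => vl (cj π (U t)) ρ (s t) (Lt.q x : Lt Q R)) =
          fun t => star (U t : A) * π x * (U t : A) := by
        funext t
        rw [vl_q, cj_apply]
      rw [e]
      have hI : star Complex.I = -Complex.I := Complex.conj_I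
      have e2 : dl (cj π (U t)) h P (Lt.q x : Lt Q R) =
          star (Complex.I • ((U t : A) * h)) * π x * (U t : A) +
            star (U t : A) * π x * (Complex.I • ((U t : A) * h)) := by
        simp only [dl, cj_apply]
        rw [star_smul, star_mul, hstar, hI]
        simp only [smul_mul_assoc, mul_smul_comm, neg_smul, neg_mul, smul_sub, mul_assoc]
        abel
      rw [e2]
      exact h1
    | r x =>
      simp only [vl_r, dl]
      exact hasDerivWithinAt_const _ _ _
    | s =>
      simp only [vl_s, dl]
      exact hsol.ds t ht
  induction w with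
  | nil =>
    simp only [ev_nil, der_nil]
    exact hasDerivWithinAt_const _ _ _
  | cons z w ih =>
    have h1 := (hlet z).mul ih
    simp only [der_cons]
    have e : (fun t => ev (vl (cj π (U t)) ρ (s t)) (z :: w)) =
        fun t => vl (cj π (U t)) ρ (s t) z * ev (vl (cj π (U t)) ρ (s t)) w := by
      funext t
      rw [ev_cons]
    rw [e]
    exact h1

end Pool.Agent.H923R2.FP.T_WDER
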